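import Pool.Agent.T2H95.KF.FIN

/-!
# The separable refinement of Ky Fan's eigenvalue majorization

For a Hermitian matrix `X` let `eig X` be the vector of its eigenvalues with multiplicity in non-increasing order, and `dn X = X↓`
the diagonal matrix with these entries.

**Theorem.** For every finite family of positive semidefinite matrices `A i` (of size `m`) and `B i` (of size `n`)
`λ(∑ i, A i ⊗ B i) ≺ λ(∑ i, (A i)↓ ⊗ (B i)↓)`.
Q1 is the case of two terms.

Proof. Let `V = ℂ^m ⊗ ℂ^n` and consider `∧^t V` as the space of antisymmetric functions of `t` points of `[m] × [n]`. For a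
matrix `X` on `V` let `T X = X^{⊗ t}` and let `D X` be its derivation. The sum of the `t` largest eigenvalues of `M` is an eigenvalue of
`D M` on `∧^t V`, so we have to bound the quadratic form of `D M = ∑ D (A i ⊗ B i)`.
(1) For a Young diagram `z ⊆ [m] × [n]` with `t` cells let `e_z` be its Slater determinant, and let `L (k, l, s)` be the span of all
`T (A ⊗ B) e_z`, with arbitrary matrices `A`, `B` and `z` with less than `s` cells in `[k] × [l]`. The elements of `L (k, l, s)`
vanish at all configurations with at least `s` points in `[k] × [l]` (a determinant with too many dependent rows). As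
`L (k, l, s)` is invariant under `U(m) × U(n)`, this is true in all product bases; expanding `A ⊗ B` in layers we get
`D (A ⊗ B) ≤ ∑_{k,l} (α_k - α_{k+1}) (β_l - β_{l+1}) ∑_s (1 - P_{k,l,s})`, with the orthogonal projection `P_{k,l,s}` on `L (k, l, s)`.
(2) So `D M ≤ G` for an operator `G` which commutes with the action of all `T (A ⊗ B)` and depends only on the eigenvalues. The
eigenspace of the largest eigenvalue `μ` of `G` is invariant under the Lie algebra `gl_m ⊕ gl_n`, so it contains a vector `v ≠ 0` that is
killed by all raising operators. The Casimir identity (skew Howe duality) shows that on the support of such a `v` the number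
`#{(r,s) : same row} + #{(r,s) : same column} - ∑ (2 row + 1) - ∑ (2 column + 1)` is zero; it is negative for all sets of `t` cells
which are not Young diagrams. So `v` is a combination of `e_z`, whose parts are in the `L (k, l, s)`, and therefore
`μ ‖v‖² = ⟨v, G v⟩ ≤ ∑_x |v x|² ∑_r M' (x r)`, where `M'` is the diagonal matrix `∑ (A i)↓ ⊗ (B i)↓`; this is at most `‖v‖²` times the
sum of the `t` largest entries of `M'`.

The packages of the proof were formalised with helper23 (vanishing, Slater determinants), helper89 (Casimir identity) and helper97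
(eigenvalues, raising operators).
-/

set_option autoImplicit false

noncomputable section

open Matrix Finset
open scoped Kronecker ComplexOrder

namespace Pool.Agent.Results.MP_5fe7ea_an.SeparableMajorization

/-- the eigenvalues of a Hermitian matrix with multiplicity, in non-increasing order (`0` for matrices that are not
Hermitian) -/
def eig {ι : Type} [Fintype ι] [DecidableEq ι] (X : Matrix ι ι ℂ) : Fin (Fintype.card ι) → ℝ :=
  open Classical in if h : X.IsHermitian then h.eigenvalues₀ else 0

/-- `X↓`, the diagonal matrix with the eigenvalues of `X` in non-increasing order -/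
def dn {k : ℕ} (X : Matrix (Fin k) (Fin k) ℂ) : Matrix (Fin k) (Fin k) ℂ :=
  Matrix.diagonal fun i => ((eig X (Fin.cast (Fintype.card_fin k).symm i) : ℝ) : ℂ)

/-- `x` is majorized by `y`: for every `t` the sum of the `t` largest entries of `x` is at most the sum of the `t` largest
entries of `y`, and the sums of all entries are equal. (The sum of the `t` largest entries is the maximum of the sums over `t`
different indices; so the first condition says that for every set `J` of indices there is a set `J'` of the same size with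
`∑_J x ≤ ∑_J' y`.) -/
def Majorized {N : ℕ} (x y : Fin N → ℝ) : Prop :=
  (∀ J : Finset (Fin N), ∃ J' : Finset (Fin N), J'.card = J.card ∧ ∑ j ∈ J, x j ≤ ∑ j ∈ J', y j) ∧
    ∑ j, x j = ∑ j, y j

/-- the sum of a non-increasing sequence over `t` indices is at most the sum over the first `t` indices -/
lemma sum_le_first {N : ℕ} (x : Fin N → ℝ) (hx : Antitone x) (t : ℕ) (ht : t ≤ N)
    (J : Finset (Fin N)) (hJ : J.card = t) : ∑ j ∈ J, x j ≤ ∑ j : Fin t, x (Fin.castLE ht j) := by
  have h1 : ∑ j ∈ J, x j = ∑ j : Fin t, x (J.orderEmbOfFin hJ j) := by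
    conv_lhs => rw [← Finset.map_orderEmbOfFin_univ J hJ, Finset.sum_map]
    rfl
  rw [h1]
  refine Finset.sum_le_sum fun j _ => hx ?_
  have key : ∀ i : ℕ, ∀ hi : i < t, i ≤ ((J.orderEmbOfFin hJ ⟨i, hi⟩ : Fin N) : ℕ) := by
    intro i
    induction i with
    | zero => intro hi; exact Nat.zero_le _
    | succ i ih =>
      intro hi
      have h2 := ih (by omega)
      have h3 : J.orderEmbOfFin hJ ⟨i, by omega⟩ < J.orderEmbOfFin hJ ⟨i + 1, hi⟩ :=
        (J.orderEmbOfFin hJ).strictMono (by rw [Fin.lt_def]; simp)
      rw [Fin.lt_def] at h3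
      omega
  rw [Fin.le_def]
  exact key j j.2

/-- **Main theorem.** For a finite family of positive semidefinite matrices `A i`, `B i` the vector of eigenvalues of
`∑ i, A i ⊗ B i` is majorized by the vector of eigenvalues of `∑ i, (A i)↓ ⊗ (B i)↓` (both matrices are Hermitian). -/
theorem result : ∀ (κ : Type) [Fintype κ] (m n : ℕ) (A : κ → Matrix (Fin m) (Fin m) ℂ)
    (B : κ → Matrix (Fin n) (Fin n) ℂ), (∀ i, (A i).PosSemidef) → (∀ i, (B i).PosSemidef) →
    (∑ i, A i ⊗ₖ B i).IsHermitian ∧ (∑ i, dn (A i) ⊗ₖ dn (B i)).IsHermitian ∧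
      Majorized (eig (∑ i, A i ⊗ₖ B i)) (eig (∑ i, dn (A i) ⊗ₖ dn (B i))) := by
  intro κ _ m n A B hA hB
  have hM : (∑ i, A i ⊗ₖ B i).IsHermitian := by
    unfold Matrix.IsHermitian
    rw [Matrix.conjTranspose_sum]
    refine Finset.sum_congr rfl fun i _ => ?_
    rw [Matrix.conjTranspose_kronecker, (hA i).1.eq, (hB i).1.eq]
  have hM' : (∑ i, T2H95.KF.dec (A i) ⊗ₖ T2H95.KF.dec (B i)).IsHermitian := by
    unfold Matrix.IsHermitian
    rw [Matrix.conjTranspose_sum]
    refine Finset.sum_congr rfl fun i _ => ?_
    rw [Matrix.conjTranspose_kronecker, (T2H95.KF.dec_herm (A i)).eq, (T2H95.KF.dec_herm (B i)).eq]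
  refine ⟨hM, hM', ?_, ?_⟩
  · intro J
    have ht : J.card ≤ Fintype.card (Fin m × Fin n) := by
      have := Finset.card_le_univ J
      rwa [Fintype.card_fin] at this
    refine ⟨Finset.univ.map (Fin.castLEEmb ht), by simp, ?_⟩
    refine (sum_le_first _ (T2H95.KF.lam_antitone _) _ ht J rfl).trans ?_
    refine (T2H95.KF.main_le A B hA hB hM hM' _ ht).trans ?_
    rw [Finset.sum_map]
    exact le_refl _
  · have h1 := T2H95.KF.sum_lam _ hM
    have h2 := T2H95.KF.sum_lam _ hM'
    have htr : ∀ {k : ℕ} (X : Matrix (Fin k) (Fin k) ℂ), X.IsHermitian →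
        (T2H95.KF.dec X).trace = X.trace := by
      intro k X hX
      rw [← T2H95.KF.sum_lam X hX]
      unfold T2H95.KF.dec
      rw [Matrix.trace_diagonal]
      push_cast
      exact Equiv.sum_comp (finCongr (Fintype.card_fin k).symm)
        fun j => ((T2H95.KF.lam X j : ℝ) : ℂ)
    have h3 : (∑ i, A i ⊗ₖ B i).trace =
        (∑ i, T2H95.KF.dec (A i) ⊗ₖ T2H95.KF.dec (B i)).trace := by
      rw [Matrix.trace_sum, Matrix.trace_sum]
      refine Finset.sum_congr rfl fun i _ => ?_
      rw [Matrix.trace_kronecker, Matrix.trace_kronecker, htr _ (hA i).1, htr _ (hB i).1]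
    have h4 : ((∑ j, T2H95.KF.lam (∑ i, A i ⊗ₖ B i) j : ℝ) : ℂ) =
        ((∑ j, T2H95.KF.lam (∑ i, T2H95.KF.dec (A i) ⊗ₖ T2H95.KF.dec (B i)) j : ℝ) : ℂ) := by
      rw [h1, h2, h3]
    exact_mod_cast h4

end Pool.Agent.Results.MP_5fe7ea_an.SeparableMajorization
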